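import Pool.Agent.Q216.SF.Sep

/-! # Project SF, job Cross: structural form of `no_cross` -/

set_option autoImplicit false

namespace Pool.Agent.Q216.SF

open Finset
open Pool.Agent.Q74.KP Pool.Agent.Q74.SF
open Pool.Agent.Q74.AR (oc Td ocd ocd_eq Co_oc)
open Pool.Agent.Q158.Pair (T Co)

variable {k : ℕ}

theorem Vd_comp {m : ℕ} (e : Fin m → Fin k) (a : Fin k → ℕ) (b : Fin k → ℤ) (t : ℕ) (X : ℤ) (i : Fin m) :
    Vd 1 (a ∘ e) (b ∘ e) t X i = Vd 1 a b t X (e i) := rfl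

/-- the embedding of a triple -/
def tr (i l j : Fin k) : Fin 3 → Fin k := ![i, l, j]

theorem tr_mono {i l j : Fin k} (h1 : i ≤ l) (h2 : l ≤ j) : Monotone (tr i l j) := by
  rw [Fin.monotone_iff_le_succ]
  intro x
  fin_cases x
  · exact h1
  · exact h2

open Classical in
theorem cross : S_Cross := by
  intro k ε hε
  set δ : ℝ := ε / (2 * ((k : ℝ) ^ 3 + 1)) with hδ
  have hk3 : (0 : ℝ) < (k : ℝ) ^ 3 + 1 := by positivity
  have hδ0 : 0 < δ := by positivity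
  obtain ⟨ρ, hρ, t₀, K, hU⟩ := no_cross hδ0
  refine ⟨ρ, hρ, t₀, fun t ht a b ha hO => ?_⟩
  obtain ⟨K', hK'⟩ := exists_nat_ge (((k : ℝ) ^ 3 + 2) * (2 / ε))
  set N : ℕ := max (max K K') 1 with hN
  set L : ℕ := N * 2 ^ t with hL
  have hKN : K ≤ N := (le_max_left _ _).trans (le_max_left _ _)
  have hKN' : K' ≤ N := (le_max_right _ _).trans (le_max_left _ _)
  have hN1 : 1 ≤ N := le_max_right _ _
  set f : ℤ → ℝ := fun n => if Good (Vv a b t n) (Lv a b t n) then 0 else 1 with hf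
  have hfper : Pe t f := by
    intro x j
    simp only [hf]
    have : Good (Vv a b t (x + 2 ^ t * j)) (Lv a b t (x + 2 ^ t * j)) ↔ Good (Vv a b t x) (Lv a b t x) := by
      unfold Good
      rw [Lv_per]
      simp only [Vv_per]
    by_cases h : Good (Vv a b t x) (Lv a b t x)
    · rw [if_pos h, if_pos (this.2 h)]
    · rw [if_neg h, if_neg (fun h' => h (this.1 h'))]
  have hf1 : ∀ x, |f x| ≤ 1 := by
    intro x
    simp only [hf]
    split_ifs <;> norm_num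
  have h2 := bd_sum hfper hf1 L
  -- the triples
  set I : Finset (Fin k × Fin k × Fin k) := univ.filter (fun p => p.1 ≤ p.2.1 ∧ p.2.1 ≤ p.2.2) with hI
  set q : Fin k × Fin k × Fin k → ℤ → ℝ := fun p x =>
    (if Vd 1 a b t x p.1 = Vd 1 a b t x p.2.2 ∧ Vd 1 a b t x p.2.1 ≠ Vd 1 a b t x p.1 then 1 else 0) +
      ai 1 1 a b t (p.1, p.2.1) x with hq
  have hqn : ∀ (x : ℤ), ∀ p ∈ I, 0 ≤ q p x := by
    intro x p _
    simp only [hq]
    have := ai_nonneg 1 1 a b t (p.1, p.2.1) x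
    split_ifs <;> linarith
  have hpt : ∀ x : ℤ, f x ≤ ∑ p ∈ I, q p x := by
    intro x
    simp only [hf]
    split_ifs with hG
    · exact sum_nonneg (hqn x)
    · unfold Good at hG
      push Not at hG
      obtain ⟨i, j, l, hil, hlj, hij, hne⟩ := hG
      have hne2 : Vv a b t x l ≠ Vv a b t x i := by
        intro h
        exact hne h ((Vv_iff a b t x l i).1 h).1
      refine le_trans ?_ (single_le_sum (hqn x) (show (i, l, j) ∈ I by simp [hI, hil, hlj]))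
      simp only [hq]
      have e1 : Vd 1 a b t x i = Vd 1 a b t x j := by
        rw [Vd_one, Vd_one]
        exact ((Vv_iff a b t x i j).1 hij).2
      by_cases hm : Vd 1 a b t x l = Vd 1 a b t x i
      · rw [acc b (ha hil) hm.symm (fun h => hne2 h.symm)]
        split_ifs <;> norm_num
      · rw [if_pos ⟨e1, hm⟩]
        have := ai_nonneg 1 1 a b t (i, l) x
        linarith
  have hone : ∀ p ∈ I, ∑ x ∈ Ico (0 : ℤ) (0 + L), q p x ≤ δ * L + 2 ^ t := by
    intro p hp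
    have hp2 := (mem_filter.1 hp).2
    simp only [hq]
    rw [sum_add_distrib]
    apply add_le_add
    · have h1 := hU t ht (a ∘ tr p.1 p.2.1 p.2.2) (b ∘ tr p.1 p.2.1 p.2.2) (ha.comp (tr_mono hp2.1 hp2.2))
        (fun i j hij => by
          have h3 := hO.2 (tr p.1 p.2.1 p.2.2 i) (tr p.1 p.2.1 p.2.2 j) (ha (tr_mono hp2.1 hp2.2 hij.le))
          push_cast
          exact h3) 1 hd1 1 0 hd1 0 L (Nat.mul_le_mul_right _ hKN)
      rw [Pool.Agent.Q158.Pair.ncard_eq (fun x : ℤ =>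
        Vd 1 (a ∘ tr p.1 p.2.1 p.2.2) (b ∘ tr p.1 p.2.1 p.2.2) t (1 * x + 0) 0 =
          Vd 1 (a ∘ tr p.1 p.2.1 p.2.2) (b ∘ tr p.1 p.2.1 p.2.2) t (1 * x + 0) 2 ∧
        Vd 1 (a ∘ tr p.1 p.2.1 p.2.2) (b ∘ tr p.1 p.2.1 p.2.2) t (1 * x + 0) 1 ≠
          Vd 1 (a ∘ tr p.1 p.2.1 p.2.2) (b ∘ tr p.1 p.2.1 p.2.2) t (1 * x + 0) 0)] at h1
      refine le_trans (le_of_eq ?_) h1
      rw [card_filter]
      push_cast
      apply sum_congr rfl
      intro x _
      simp only [Vd_comp, one_mul, add_zero]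
      rfl
    · exact acc_sum b t (p := (p.1, p.2.1)) (ha hp2.1) L
  have h3 : ∑ x ∈ Ico (0 : ℤ) (0 + L), f x ≤ (k : ℝ) ^ 3 * (δ * L + 2 ^ t) := by
    refine (sum_le_sum fun x _ => hpt x).trans ?_
    rw [sum_comm]
    refine (sum_le_card_nsmul _ _ _ hone).trans ?_
    rw [nsmul_eq_mul]
    apply mul_le_mul_of_nonneg_right _ (by positivity)
    have : I.card ≤ k ^ 3 := by
      refine (card_le_univ _).trans (le_of_eq ?_)
      rw [Fintype.card_prod, Fintype.card_prod, Fintype.card_fin]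
      ring
    exact_mod_cast this
  have hL' : (L : ℝ) = N * 2 ^ t := by rw [hL]; push_cast; ring
  have h2t : (0 : ℝ) < 2 ^ t := by positivity
  have hNpos : (0 : ℝ) < N := by exact_mod_cast hN1
  have hLpos : (0 : ℝ) < L := by rw [hL']; positivity
  have hNK : ((k : ℝ) ^ 3 + 2) * 2 ^ t ≤ ε / 2 * L := by
    have i1 : ((k : ℝ) ^ 3 + 2) * (2 / ε) ≤ N := hK'.trans (by exact_mod_cast hKN')
    have i2 : ((k : ℝ) ^ 3 + 2) * 2 ^ t = ε / 2 * (((k : ℝ) ^ 3 + 2) * (2 / ε) * 2 ^ t) := by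
      field_simp
    rw [i2, hL']
    exact mul_le_mul_of_nonneg_left (mul_le_mul_of_nonneg_right i1 h2t.le) (by positivity)
  have hkδ : (k : ℝ) ^ 3 * δ ≤ ε / 2 := by
    have i1 : δ * (2 * ((k : ℝ) ^ 3 + 1)) = ε := div_mul_cancel₀ _ (by positivity)
    nlinarith
  have h4 : EE t f * L ≤ ε * L := by
    rw [abs_le] at h2
    have h5 := mul_le_mul_of_nonneg_right hkδ hLpos.le
    have h6 : (k : ℝ) ^ 3 * (δ * L + 2 ^ t) = (k : ℝ) ^ 3 * δ * L + (k : ℝ) ^ 3 * 2 ^ t := by ring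
    rw [h6] at h3
    have h7 : ((k : ℝ) ^ 3 + 2) * 2 ^ t = (k : ℝ) ^ 3 * 2 ^ t + 2 * 2 ^ t := by ring
    rw [h7] at hNK
    linarith [h2.1]
  exact le_of_mul_le_mul_right h4 hLpos

end Pool.Agent.Q216.SF
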