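import Pool.Agent.Q74.SF.Def

/-! # Project SF, job Sep: structural form of `unsorted` -/

set_option autoImplicit false

namespace Pool.Agent.Q216.SF

open Finset
open Pool.Agent.Q74.KP Pool.Agent.Q74.SF
open Pool.Agent.Q74.AR (oc Td ocd ocd_eq Co_oc)
open Pool.Agent.Q158.Pair (T Co)

variable {k : ℕ}

theorem hd1 : (1 : ℤ) % 2 = 1 := by norm_num

theorem hw1 (t : ℕ) : (1 : ℤ) * 1 + 2 ^ t * 0 = 1 := by ring

theorem Vd_one (a : Fin k → ℕ) (b : Fin k → ℤ) (t : ℕ) (X : ℤ) (i : Fin k) :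
    Vd 1 a b t X i = T^[t] (yy a b i X) := by
  rw [V_eq hd1 (hw1 t) a b i X, one_mul, one_mul]
  ring

theorem T_per (a : Fin k → ℕ) (b : Fin k → ℤ) (t : ℕ) (n j : ℤ) (i : Fin k) :
    T^[t] (yy a b i (n + 2 ^ t * j)) = T^[t] (yy a b i n) + 3 ^ oc t (yy a b i n) * (3 ^ a i * j) := by
  have h := V_shift hd1 (hw1 t) a b i n j
  rwa [Vd_one, Vd_one, one_mul] at h

theorem Vv_iff (a : Fin k → ℕ) (b : Fin k → ℤ) (t : ℕ) (n : ℤ) (i l : Fin k) :
    Vv a b t n i = Vv a b t n l ↔ Lv a b t n i = Lv a b t n l ∧ T^[t] (yy a b i n) = T^[t] (yy a b l n) := by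
  unfold Vv
  exact Prod.mk.injEq _ _ _ _ ▸ Iff.rfl

theorem Vv_per (a : Fin k → ℕ) (b : Fin k → ℤ) (t : ℕ) (n j : ℤ) (i l : Fin k) :
    Vv a b t (n + 2 ^ t * j) i = Vv a b t (n + 2 ^ t * j) l ↔ Vv a b t n i = Vv a b t n l := by
  rw [Vv_iff, Vv_iff, Lv_per, T_per, T_per]
  apply and_congr_right
  intro h1
  have h3 : oc t (yy a b i n) + a i = oc t (yy a b l n) + a l := by
    unfold Lv at h1
    omega
  have h4 : (3 : ℤ) ^ oc t (yy a b i n) * (3 ^ a i * j) = 3 ^ oc t (yy a b l n) * (3 ^ a l * j) := by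
    rw [← mul_assoc, ← mul_assoc, ← pow_add, ← pow_add, h3]
  rw [h4]
  exact ⟨fun h => add_right_cancel h, fun h => by rw [h]⟩

/-- equal values with distinct level-value pairs: an accidental meeting -/
theorem acc {a : Fin k → ℕ} (b : Fin k → ℤ) {t : ℕ} {n : ℤ} {i l : Fin k} (h : a i ≤ a l)
    (h1 : Vd 1 a b t n i = Vd 1 a b t n l) (h2 : Vv a b t n i ≠ Vv a b t n l) :
    ai 1 1 a b t (i, l) n = 1 := by
  unfold ai
  rw [if_pos]
  refine ⟨?_, h1⟩
  intro hC
  apply h2
  rw [one_mul] at hC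
  rw [Vv_iff]
  constructor
  · have g1 := Co_oc hC
    simp only at g1
    rw [zz_eq b h] at g1
    have g3 : (zz a b i l).1 = a l - a i := rfl
    rw [g3] at g1
    unfold Lv
    omega
  · rw [Vd_one, Vd_one] at h1
    exact h1

/-- the number of the accidental meetings -/
theorem acc_sum {a : Fin k → ℕ} (b : Fin k → ℤ) (t : ℕ) {p : Fin k × Fin k} (h : a p.1 ≤ a p.2) (L : ℕ) :
    ∑ x ∈ Ico (0 : ℤ) (0 + L), ai 1 1 a b t p x ≤ 2 ^ t := by
  have h1 := ai_sum hd1 (hw1 t) b h 1 0 hd1 0 L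
  simpa only [one_mul, add_zero] using h1

theorem bd_sum {t : ℕ} {h : ℤ → ℝ} (hh : Pe t h) (h1 : ∀ x, |h x| ≤ 1) (L : ℕ) :
    |∑ x ∈ Ico (0 : ℤ) (0 + L), h x - EE t h * L| ≤ 2 * 2 ^ t := by
  have h2 := count_bd hh h1 1 0 hd1 0 L
  simpa only [one_mul, add_zero] using h2

open Classical in
theorem sep : S_Sep := by
  intro k Λ ε hΛ hε
  obtain ⟨ρ, hρ, t₀, K, hU⟩ := unsorted k hΛ (half_pos hε)
  refine ⟨ρ, hρ, t₀, fun t ht a b hO g hg1 hgL => ?_⟩
  obtain ⟨K', hK'⟩ := exists_nat_ge (((k : ℝ) * k + 2) * (2 / ε))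
  set N : ℕ := max (max K K') 1 with hN
  set L : ℕ := N * 2 ^ t with hL
  have hKN : K ≤ N := (le_max_left _ _).trans (le_max_left _ _)
  have hKN' : K' ≤ N := (le_max_right _ _).trans (le_max_left _ _)
  have hN1 : 1 ≤ N := le_max_right _ _
  have h1 := hU t ht a b hO.1 hO.2 1 hd1 1 0 hd1 0 L (Nat.mul_le_mul_right _ hKN) g hg1 hgL
  simp only [one_mul, add_zero] at h1
  have hlev : ∀ x : ℤ, (fun i => (a i : ℤ) + ocd 1 t (Yd 1 a b i x)) = Lv a b t x := by
    intro x
    funext i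
    unfold Lv
    rw [ocd_eq hd1 (hw1 t), one_mul]
    unfold Yd yy
    rw [one_mul]
  simp only [hlev] at h1
  set f : ℤ → ℝ := fun n => if Function.Injective (Vv a b t n) then g (Lv a b t n) else 0 with hf
  have hfper : Pe t f := by
    intro x j
    simp only [hf]
    rw [Lv_per]
    have : Function.Injective (Vv a b t (x + 2 ^ t * j)) ↔ Function.Injective (Vv a b t x) := by
      unfold Function.Injective
      simp only [Vv_per]
    by_cases h : Function.Injective (Vv a b t x)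
    · rw [if_pos h, if_pos (this.2 h)]
    · rw [if_neg h, if_neg (fun h' => h (this.1 h'))]
  have hf1 : ∀ x, |f x| ≤ 1 := by
    intro x
    simp only [hf]
    split_ifs
    · exact hg1 _
    · rw [abs_zero]; exact zero_le_one
  have h2 := bd_sum hfper hf1 L
  set I : Finset (Fin k × Fin k) := univ.filter (fun p => a p.1 ≤ a p.2) with hI
  have hpt : ∀ x : ℤ, |Dn 1 a b t x * g (Lv a b t x) - f x| ≤ ∑ p ∈ I, ai 1 1 a b t p x := by
    intro x
    have hnn : ∀ p ∈ I, 0 ≤ ai 1 1 a b t p x := fun p _ => ai_nonneg _ _ _ _ _ _ _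
    by_cases hD : Function.Injective (Vd 1 a b t x)
    · have hV : Function.Injective (Vv a b t x) := by
        intro i l hil
        apply hD
        rw [Vd_one, Vd_one]
        exact ((Vv_iff a b t x i l).1 hil).2
      simp only [hf]
      unfold Dn
      rw [if_pos hD, if_pos hV, one_mul, sub_self, abs_zero]
      exact sum_nonneg hnn
    · by_cases hV : Function.Injective (Vv a b t x)
      · simp only [hf]
        unfold Dn
        rw [if_neg hD, if_pos hV, zero_mul, zero_sub, abs_neg]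
        rw [Function.not_injective_iff] at hD
        obtain ⟨i, j, hij, hne⟩ := hD
        obtain ⟨i, j, hij, hne, hle⟩ : ∃ i j, Vd 1 a b t x i = Vd 1 a b t x j ∧ i ≠ j ∧ a i ≤ a j := by
          rcases le_total (a i) (a j) with h | h
          · exact ⟨i, j, hij, hne, h⟩
          · exact ⟨j, i, hij.symm, hne.symm, h⟩
        refine (hg1 _).trans ((le_of_eq ?_).trans (single_le_sum hnn (show (i, j) ∈ I by simp [hI, hle])))
        exact (acc b hle hij (fun h => hne (hV h))).symm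
      · simp only [hf]
        unfold Dn
        rw [if_neg hD, if_neg hV, zero_mul, sub_zero, abs_zero]
        exact sum_nonneg hnn
  have h3 : |∑ x ∈ Ico (0 : ℤ) (0 + L), Dn 1 a b t x * g (Lv a b t x) - ∑ x ∈ Ico (0 : ℤ) (0 + L), f x| ≤
      (k : ℝ) * k * 2 ^ t := by
    rw [← sum_sub_distrib]
    refine (abs_sum_le_sum_abs _ _).trans ((sum_le_sum fun x _ => hpt x).trans ?_)
    rw [sum_comm]
    refine (sum_le_card_nsmul _ _ (2 ^ t) ?_).trans ?_
    · intro p hp
      exact acc_sum b t (mem_filter.1 hp).2 L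
    · rw [nsmul_eq_mul]
      apply mul_le_mul_of_nonneg_right _ (by positivity)
      have : I.card ≤ k * k := by
        refine (card_le_univ _).trans ?_
        rw [Fintype.card_prod, Fintype.card_fin]
      exact_mod_cast this
  have hL' : (L : ℝ) = N * 2 ^ t := by rw [hL]; push_cast; ring
  have h2t : (0 : ℝ) < 2 ^ t := by positivity
  have hNpos : (0 : ℝ) < N := by exact_mod_cast hN1
  have hLpos : (0 : ℝ) < L := by rw [hL']; positivity
  have hNK : ((k : ℝ) * k + 2) * 2 ^ t ≤ ε / 2 * L := by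
    have i1 : ((k : ℝ) * k + 2) * (2 / ε) ≤ N := hK'.trans (by exact_mod_cast hKN')
    have i2 : ((k : ℝ) * k + 2) * 2 ^ t = ε / 2 * (((k : ℝ) * k + 2) * (2 / ε) * 2 ^ t) := by
      field_simp
    rw [i2, hL']
    exact mul_le_mul_of_nonneg_left (mul_le_mul_of_nonneg_right i1 h2t.le) (by positivity)
  have h4 : |EE t f - NG g t (fun i => (a i : ℤ))| * L ≤ ε * L := by
    rw [← abs_of_pos hLpos, ← abs_mul, abs_of_pos hLpos]
    rw [abs_le] at h1 h2 h3 ⊢
    constructor <;> nlinarith [h1.1, h1.2, h2.1, h2.2, h3.1, h3.2]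
  exact le_of_mul_le_mul_right h4 hLpos

end Pool.Agent.Q216.SF
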